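import Pool.Agent.Helper53.PF.St

/-! # Project PF: module DGC (degrees: only 3, 5, 6 survive) -/

set_option autoImplicit false

namespace PF.Helper93

open Polynomial

theorem holds_DGC : PF.StDGC := by
  intro dvt n hn x y z heq hx0 hx8 hy hz hs
  set D := x.natDegree with hD
  have hxne : x ≠ 0 := by
    intro h
    rw [h, natDegree_zero] at hD
    omega
  set a := x.coeff D with ha
  have ha0 : a ≠ 0 := by
    rw [ha, hD]
    exact leadingCoeff_ne_zero.2 hxne
  have hya : y.coeff D = -a := by
    have h1 : (x + y).coeff D = 0 := coeff_eq_zero_of_natDegree_lt hs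
    rw [coeff_add] at h1
    linear_combination h1
  have hxD : x.natDegree ≤ D := le_rfl
  have hyD : y.natDegree ≤ D := hy.le
  have hfac : (x + y) * (x ^ 2 - x * y + y ^ 2) = C n - z ^ 3 := by
    linear_combination heq
  have hs0 : x + y ≠ 0 := by
    intro h
    rw [h, zero_mul] at hfac
    have h1 : z ^ 3 = C n := by linear_combination hfac
    have h2 : z.natDegree = 0 := by
      have h3 := congrArg natDegree h1
      rw [natDegree_pow, natDegree_C] at h3
      omega
    obtain ⟨b, hb⟩ := natDegree_eq_zero.1 h2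
    rw [← hb, ← C_pow] at h1
    exact hn b (C_injective h1)
  have hq : (x ^ 2 - x * y + y ^ 2).coeff (D + D) = 3 * a ^ 2 := by
    rw [coeff_add, coeff_sub, pow_two, pow_two, coeff_mul_add_eq_of_natDegree_le hxD hxD,
      coeff_mul_add_eq_of_natDegree_le hxD hyD, coeff_mul_add_eq_of_natDegree_le hyD hyD, hya]
    ring
  have hqle : (x ^ 2 - x * y + y ^ 2).natDegree ≤ D + D := by
    refine natDegree_add_le_of_degree_le ((natDegree_sub_le_of_le (m := D + D) (n := D + D)
      ?_ ?_).trans_eq (max_self _)) ?_
    · rw [pow_two]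
      exact natDegree_mul_le_of_le hxD hxD
    · exact natDegree_mul_le_of_le hxD hyD
    · rw [pow_two]
      exact natDegree_mul_le_of_le hyD hyD
  have hqne : (x ^ 2 - x * y + y ^ 2).coeff (D + D) ≠ 0 := by
    rw [hq]
    exact mul_ne_zero three_ne_zero (pow_ne_zero 2 ha0)
  have hqd : (x ^ 2 - x * y + y ^ 2).natDegree = D + D :=
    natDegree_eq_of_le_of_coeff_ne_zero hqle hqne
  have hq0 : x ^ 2 - x * y + y ^ 2 ≠ 0 := by
    intro h
    rw [h, coeff_zero] at hqne
    exact hqne rfl
  have hdeg : (x + y).natDegree + (D + D) = (C n - z ^ 3).natDegree := by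
    rw [← hfac, natDegree_mul hs0 hq0, hqd]
  have hz0 : 0 < z.natDegree := by
    rcases Nat.eq_zero_or_pos z.natDegree with h | h
    · obtain ⟨b, hb⟩ := natDegree_eq_zero.1 h
      have h2 : (C n - z ^ 3).natDegree = 0 := by
        rw [← hb, ← C_pow, ← C_sub]
        exact natDegree_C _
      omega
    · exact h
  have hdz : (C n - z ^ 3).natDegree = 3 * z.natDegree := by
    rw [natDegree_sub_eq_right_of_natDegree_lt, natDegree_pow]
    rw [natDegree_C, natDegree_pow]
    omega
  have h3 : 3 ∣ (x + y).natDegree := by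
    refine dvt n hn (x + y) z hs0 ⟨-(x ^ 2 - x * y + y ^ 2), ?_⟩
    linear_combination hfac
  refine ⟨hs0, ?_, hz0, ?_⟩
  · refine natDegree_eq_of_le_of_coeff_ne_zero ((natDegree_sub_le_of_le hxD hyD).trans_eq (max_self _)) ?_
    rw [coeff_sub, hya, sub_neg_eq_add]
    intro h
    apply ha0
    have : (2 : ℚ) * a = 0 := by linear_combination h
    rcases mul_eq_zero.1 this with h2 | h2
    · norm_num at h2
    · exact h2
  · have hxy : (x - y).natDegree = D := by
      refine natDegree_eq_of_le_of_coeff_ne_zero ((natDegree_sub_le_of_le hxD hyD).trans_eq (max_self _)) ?_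
      rw [coeff_sub, hya, sub_neg_eq_add]
      intro h
      apply ha0
      have : (2 : ℚ) * a = 0 := by linear_combination h
      rcases mul_eq_zero.1 this with h2 | h2
      · norm_num at h2
      · exact h2
    rw [hxy]
    omega

end PF.Helper93
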